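import Mathlib

/-!
# A `C¹` function vanishing on a Cantor set, but not to second order
-/

set_option autoImplicit false
set_option linter.unusedVariables false

open Set Filter Topology

namespace Pool.Agent.X170.Jets

/-- a smooth 1-periodic function, vanishing on `[0, 1/3]` and positive at `1/2` -/
noncomputable def ψ (u : ℝ) : ℝ := expNegInvGlue (-Real.cos (2 * Real.pi * u) - 1 / 2)

theorem ψ_nonneg (u : ℝ) : 0 ≤ ψ u := expNegInvGlue.nonneg _

theorem ψ_smooth : ContDiff ℝ 1 ψ := by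
  unfold ψ
  exact expNegInvGlue.contDiff.comp (by fun_prop)

theorem ψ_add_int (u : ℝ) (n : ℤ) : ψ (u + n) = ψ u := by
  unfold ψ
  rw [mul_add, show 2 * Real.pi * (n : ℝ) = n * (2 * Real.pi) by ring, Real.cos_add_int_mul_two_pi]

theorem ψ_eq_zero {u : ℝ} (h0 : 0 ≤ u) (h1 : u ≤ 1 / 3) : ψ u = 0 := by
  unfold ψ
  apply expNegInvGlue.zero_of_nonpos
  have h2 : Real.cos (2 * Real.pi * (1 / 3)) ≤ Real.cos (2 * Real.pi * u) := by
    apply Real.cos_le_cos_of_nonneg_of_le_pi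
    · positivity
    · nlinarith [Real.pi_pos]
    · nlinarith [Real.pi_pos]
  have h3 : Real.cos (2 * Real.pi * (1 / 3)) = -1 / 2 := by
    rw [show 2 * Real.pi * (1 / 3) = Real.pi - Real.pi / 3 by ring, Real.cos_pi_sub,
      Real.cos_pi_div_three]
    ring
  linarith

theorem ψ_half (k : ℤ) : 0 < ψ (k + 1 / 2) := by
  rw [add_comm, ψ_add_int]
  unfold ψ
  apply expNegInvGlue.pos_of_pos
  rw [show 2 * Real.pi * (1 / 2) = Real.pi by ring, Real.cos_pi]
  norm_num

theorem ψ_half_eq (k : ℤ) : ψ (k + 1 / 2) = ψ (1 / 2) := by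
  rw [add_comm, ψ_add_int]

theorem exists_bound : ∃ K : ℝ, 0 < K ∧ (∀ u, |ψ u| ≤ K) ∧ ∀ u, |deriv ψ u| ≤ K := by
  have hper : ∀ {f : ℝ → ℝ}, Continuous f → (∀ u (n : ℤ), f (u + n) = f u) →
      ∃ K : ℝ, ∀ u, |f u| ≤ K := by
    intro f hf hp
    obtain ⟨K, hK⟩ := (isCompact_Icc (a := (0 : ℝ)) (b := 1)).exists_bound_of_continuousOn
      hf.continuousOn
    refine ⟨K, fun u => ?_⟩
    have h := hK (Int.fract u) ⟨Int.fract_nonneg u, (Int.fract_lt_one u).le⟩
    rw [Real.norm_eq_abs] at h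
    have h2 := hp (Int.fract u) ⌊u⌋
    rw [Int.fract_add_floor] at h2
    rw [h2]
    exact h
  obtain ⟨K1, h1⟩ := hper ψ_smooth.continuous ψ_add_int
  obtain ⟨K2, h2⟩ := hper (ψ_smooth.continuous_deriv le_rfl) (fun u n => by
    have h : deriv (fun u => ψ (u + n)) u = deriv ψ u := by simp only [ψ_add_int]
    rwa [deriv_comp_add_const] at h)
  refine ⟨max 1 (max K1 K2), by positivity, fun u => (h1 u).trans ?_, fun u => (h2 u).trans ?_⟩
  · exact (le_max_left _ _).trans (le_max_right _ _)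
  · exact (le_max_right _ _).trans (le_max_right _ _)

/-- the function -/
noncomputable def g (u : ℝ) : ℝ := ∑' n : ℕ, (1 / 16 : ℝ) ^ n * ψ (4 ^ n * u)

theorem summ (u : ℝ) : Summable fun n : ℕ => (1 / 16 : ℝ) ^ n * ψ (4 ^ n * u) := by
  obtain ⟨K, hK, h1, -⟩ := exists_bound
  refine Summable.of_norm_bounded (g := fun n : ℕ => (1 / 16 : ℝ) ^ n * K) ?_ fun n => ?_
  · exact (summable_geometric_of_lt_one (by norm_num) (by norm_num)).mul_right K
  · rw [norm_mul, Real.norm_of_nonneg (by positivity : (0 : ℝ) ≤ (1 / 16) ^ n)]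
    exact mul_le_mul_of_nonneg_left (h1 _) (by positivity)

theorem g_nonneg (u : ℝ) : 0 ≤ g u := tsum_nonneg fun n => mul_nonneg (by positivity) (ψ_nonneg _)

theorem g_ge (u : ℝ) (n : ℕ) : (1 / 16 : ℝ) ^ n * ψ (4 ^ n * u) ≤ g u :=
  (summ u).le_tsum n fun m _ => mul_nonneg (by positivity) (ψ_nonneg _)

/-- `g` is of class `C¹`, and its derivative is bounded. -/
theorem g_C1 : ContDiff ℝ 1 g ∧ ∃ K : ℝ, 0 ≤ K ∧ ∀ u v, |g u - g v| ≤ K * |u - v| := by
  obtain ⟨K, hK, h0, h1⟩ := exists_bound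
  have hd : ∀ (n : ℕ) (u : ℝ), HasDerivAt (fun u => (1 / 16 : ℝ) ^ n * ψ (4 ^ n * u))
      ((1 / 4 : ℝ) ^ n * deriv ψ (4 ^ n * u)) u := by
    intro n u
    have h2 : HasDerivAt ψ (deriv ψ (4 ^ n * u)) (4 ^ n * u) :=
      (ψ_smooth.differentiable (by simp) _).hasDerivAt
    have h3 : HasDerivAt (fun u : ℝ => (4 : ℝ) ^ n * u) (4 ^ n) u := by
      simpa using (hasDerivAt_id u).const_mul ((4 : ℝ) ^ n)
    have h4 := (h2.comp u h3).const_mul ((1 / 16 : ℝ) ^ n)
    have h5 : (1 / 4 : ℝ) ^ n * deriv ψ (4 ^ n * u) =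
        (1 / 16 : ℝ) ^ n * (deriv ψ (4 ^ n * u) * 4 ^ n) := by
      rw [show (1 / 4 : ℝ) = 1 / 16 * 4 by norm_num, mul_pow]
      ring
    rw [h5]
    exact h4
  have hs : Summable fun n : ℕ => (1 / 4 : ℝ) ^ n * K :=
    (summable_geometric_of_lt_one (by norm_num) (by norm_num)).mul_right K
  have hb : ∀ (n : ℕ) (u : ℝ), ‖(1 / 4 : ℝ) ^ n * deriv ψ (4 ^ n * u)‖ ≤ (1 / 4 : ℝ) ^ n * K := by
    intro n u
    rw [norm_mul, Real.norm_of_nonneg (by positivity : (0 : ℝ) ≤ (1 / 4) ^ n)]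
    exact mul_le_mul_of_nonneg_left (h1 _) (by positivity)
  have hder : ∀ u, HasDerivAt g (∑' n : ℕ, (1 / 4 : ℝ) ^ n * deriv ψ (4 ^ n * u)) u :=
    fun u => hasDerivAt_tsum hs hd hb (summ 0) u
  have hcont : Continuous fun u => ∑' n : ℕ, (1 / 4 : ℝ) ^ n * deriv ψ (4 ^ n * u) := by
    refine continuous_tsum (fun n => ?_) hs hb
    exact continuous_const.mul ((ψ_smooth.continuous_deriv le_rfl).comp (by fun_prop))
  refine ⟨?_, ∑' n : ℕ, (1 / 4 : ℝ) ^ n * K, tsum_nonneg fun n => by positivity, fun u v => ?_⟩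
  · rw [contDiff_one_iff_deriv]
    refine ⟨fun u => (hder u).differentiableAt, ?_⟩
    rwa [show deriv g = fun u => ∑' n : ℕ, (1 / 4 : ℝ) ^ n * deriv ψ (4 ^ n * u) from
      funext fun u => (hder u).deriv]
  · have := convex_univ.norm_image_sub_le_of_norm_hasDerivWithin_le (f := g)
      (f' := fun u => ∑' n : ℕ, (1 / 4 : ℝ) ^ n * deriv ψ (4 ^ n * u))
      (C := ∑' n : ℕ, (1 / 4 : ℝ) ^ n * K) (s := univ) (fun x _ => (hder x).hasDerivWithinAt)
      (fun x _ => tsum_of_norm_bounded hs.hasSum fun n => hb n x) (mem_univ v) (mem_univ u)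
    exact this

/-- `g` does not vanish to second order anywhere, even from the right. -/
theorem g_growth (c : ℝ) (n : ℕ) : ∃ τ : ℝ, 0 < τ ∧ τ ≤ (1 / 4) ^ n ∧
    ψ (1 / 2) * τ ^ 2 ≤ g (c + τ) := by
  set y : ℝ := 4 ^ n * c with hy
  set h : ℝ := ⌊y + 1 / 2⌋ + 1 / 2 with hh
  have h1 : y < h := by
    have := Int.lt_floor_add_one (y + 1 / 2)
    rw [hh]
    linarith
  have h2 : h ≤ y + 1 := by
    have := Int.floor_le (y + 1 / 2)
    rw [hh]
    linarith
  have h4 : (0 : ℝ) < 4 ^ n := by positivity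
  refine ⟨(h - y) / 4 ^ n, div_pos (by linarith) h4, ?_, ?_⟩
  · rw [div_le_iff₀ h4, ← mul_pow]
    norm_num
    linarith
  · refine le_trans ?_ (g_ge _ n)
    have h5 : 4 ^ n * (c + (h - y) / 4 ^ n) = h := by
      rw [mul_add, mul_div_cancel₀ _ h4.ne', ← hy]
      ring
    rw [h5, hh, ψ_half_eq, ← hh]
    have h6 : ((h - y) / 4 ^ n) ^ 2 ≤ (1 / 16 : ℝ) ^ n := by
      have h7 : (h - y) / 4 ^ n ≤ (1 / 4) ^ n := by
        rw [div_le_iff₀ h4, ← mul_pow]
        norm_num
        linarith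
      have h8 : 0 ≤ (h - y) / 4 ^ n := div_nonneg (by linarith) h4.le
      calc ((h - y) / 4 ^ n) ^ 2 ≤ ((1 / 4 : ℝ) ^ n) ^ 2 := pow_le_pow_left₀ h8 h7 2
        _ = (1 / 16 : ℝ) ^ n := by rw [← pow_mul, mul_comm, pow_mul]; norm_num
    have h9 : 0 ≤ ψ (1 / 2) := ψ_nonneg _
    nlinarith

/-- `g` has uncountably many zeros. -/
theorem g_zeros : ¬ {c : ℝ | g c = 0}.Countable := by
  intro hcount
  have hpos : (0 : ℝ) ≤ 1 / 4 := by norm_num
  have hlt : (1 / 4 : ℝ) < 1 := by norm_num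
  have hbd : ∀ f : ℕ → Bool, 0 ≤ Cardinal.cantorFunction (1 / 4) f ∧
      Cardinal.cantorFunction (1 / 4) f ≤ 4 / 3 := by
    intro f
    constructor
    · unfold Cardinal.cantorFunction
      exact tsum_nonneg fun n => Cardinal.cantorFunctionAux_nonneg hpos
    · have h1 : Cardinal.cantorFunction (1 / 4) f ≤ Cardinal.cantorFunction (1 / 4) fun _ => true :=
        Cardinal.cantorFunction_le hpos hlt fun n _ => rfl
      refine h1.trans ?_
      unfold Cardinal.cantorFunction Cardinal.cantorFunctionAux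
      simp only [cond_true]
      rw [tsum_geometric_of_lt_one hpos hlt]
      norm_num
  have hshift : ∀ (n : ℕ) (f : ℕ → Bool), ∃ (k : ℤ) (f' : ℕ → Bool),
      4 ^ n * Cardinal.cantorFunction (1 / 4) f = k + Cardinal.cantorFunction (1 / 4) f' := by
    intro n
    induction n with
    | zero => exact fun f => ⟨0, f, by simp⟩
    | succ n ih =>
      intro f
      obtain ⟨k, f', hk⟩ := ih f
      rw [pow_succ, mul_comm _ (4 : ℝ), mul_assoc, hk, Cardinal.cantorFunction_succ f' hpos hlt]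
      refine ⟨4 * k + 4 * (cond (f' 0) 1 0), fun n => f' (n + 1), ?_⟩
      cases f' 0 <;> simp <;> ring
  have hzero : ∀ f : ℕ → Bool, g (Cardinal.cantorFunction (1 / 4) f) = 0 := by
    intro f
    unfold g
    have : ∀ n : ℕ, (1 / 16 : ℝ) ^ n * ψ (4 ^ n * Cardinal.cantorFunction (1 / 4) f) = 0 := by
      intro n
      obtain ⟨k, f', hk⟩ := hshift n f
      rw [hk, add_comm, ψ_add_int, Cardinal.cantorFunction_succ f' hpos hlt]
      have h2 := hbd fun n => f' (n + 1)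
      have h3 : ψ (1 / 4 * Cardinal.cantorFunction (1 / 4) fun n => f' (n + 1)) = 0 :=
        ψ_eq_zero (by linarith [h2.1]) (by linarith [h2.2])
      cases f' 0
      · simp only [cond_false, zero_add, h3, mul_zero]
      · simp only [cond_true]
        rw [add_comm, show (1 : ℝ) = ((1 : ℤ) : ℝ) by simp, ψ_add_int]
        simp only [Int.cast_one]
        rw [h3, mul_zero]
    simp only [this, tsum_zero]
  have hinj : Function.Injective (Cardinal.cantorFunction (1 / 4)) :=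
    Cardinal.cantorFunction_injective (by norm_num) (by norm_num)
  have hr : (range (Cardinal.cantorFunction (1 / 4))).Countable :=
    hcount.mono (by rintro _ ⟨f, rfl⟩; exact hzero f)
  have hc : Countable (ℕ → Bool) := by
    have : (univ : Set (ℕ → Bool)).Countable := by
      rw [← image_univ] at hr
      exact (Set.countable_of_injective_of_countable_image hinj.injOn hr)
    exact countable_univ_iff.1 this
  have h5 : Cardinal.mk (ℕ → Bool) ≤ Cardinal.aleph0 := Cardinal.mk_le_aleph0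
  rw [← Cardinal.power_def, Cardinal.mk_bool, Cardinal.mk_nat] at h5
  exact absurd h5 (not_le.2 (Cardinal.cantor _))

end Pool.Agent.X170.Jets
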